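import Pool.Agent.H525.MV.Stm

/-!
# Translations of polynomials in several variables (TR)
-/

set_option autoImplicit false

namespace Pool.Agent.H196.MV

open Finset MvPolynomial
open Pool.Agent.H525.MV

open scoped Classical

variable {ι : Type}

theorem tr_add (F G : MvPolynomial ι ℤ) (v : ι → ℤ) : tr (F + G) v = tr F v + tr G v :=
  map_add (aeval (fun i => X i + C (v i))) F G

theorem tr_mul (F G : MvPolynomial ι ℤ) (v : ι → ℤ) : tr (F * G) v = tr F v * tr G v :=
  map_mul (aeval (fun i => X i + C (v i))) F G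

theorem tr_C (a : ℤ) (v : ι → ℤ) : tr (C a) v = C a := by
  unfold tr
  rw [aeval_C]
  rfl

theorem tr_X (i : ι) (v : ι → ℤ) : tr (X i) v = X i + C (v i) := by
  unfold tr
  rw [aeval_X]

theorem tr_eval (F : MvPolynomial ι ℤ) (v x : ι → ℤ) :
    eval x (tr F v) = eval (fun i => x i + v i) F := by
  induction F using MvPolynomial.induction_on with
  | C a => rw [tr_C, eval_C, eval_C]
  | add p q hp hq => rw [tr_add, map_add, map_add, hp, hq]
  | mul_X p i hp => rw [tr_mul, map_mul, map_mul, hp, tr_X, map_add, eval_X, eval_X, eval_C]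

theorem red_eval (F : MvPolynomial ι ℤ) (v : ι → ℤ) (p : ℕ) (x : ι → ZMod p) :
    eval x (red (tr F v) p) = eval (fun i => x i + ((v i : ℤ) : ZMod p)) (red F p) := by
  unfold red
  induction F using MvPolynomial.induction_on with
  | C a => rw [tr_C, map_C, eval_C, eval_C]
  | add p q hp hq => rw [tr_add, map_add, map_add, map_add, map_add, hp, hq]
  | mul_X p i hp =>
    rw [tr_mul, map_mul, map_mul, map_mul, map_mul, hp, tr_X, map_add, map_X, map_C, map_add,
      eval_X, eval_X, eval_C]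
    rfl

theorem tr_tr (F : MvPolynomial ι ℤ) (v w : ι → ℤ) :
    tr (tr F v) w = tr F (fun i => v i + w i) := by
  induction F using MvPolynomial.induction_on with
  | C a => rw [tr_C, tr_C, tr_C]
  | add p q hp hq => rw [tr_add, tr_add, tr_add, hp, hq]
  | mul_X p i hp =>
    rw [tr_mul, tr_mul, tr_mul, hp, tr_X, tr_add, tr_X, tr_C, tr_X, C_add]
    ring

theorem tr_zero (F : MvPolynomial ι ℤ) : tr F (fun _ => 0) = F := by
  induction F using MvPolynomial.induction_on with
  | C a => rw [tr_C]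
  | add p q hp hq => rw [tr_add, hp, hq]
  | mul_X p i hp => rw [tr_mul, hp, tr_X, C_0, add_zero]

theorem zc_tr (F : MvPolynomial ι ℤ) (v : ι → ℤ) (p : ℕ) : zc (tr F v) p = zc F p := by
  unfold zc
  refine Nat.card_congr ((Equiv.addRight (fun i => ((v i : ℤ) : ZMod p))).subtypeEquiv ?_)
  intro x
  rw [red_eval]
  rfl

theorem tr_sum (F : MvPolynomial ι ℤ) (v : ι → ℤ) : tr F v = ∑ t ∈ F.support,
    C (coeff t F) * ∏ i ∈ t.support, (X i + C (v i)) ^ t i := by
  unfold tr
  rw [aeval_def, eval₂_eq]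
  rfl

theorem deg_le (F : MvPolynomial ι ℤ) (v : ι → ℤ) : (tr F v).totalDegree ≤ F.totalDegree := by
  rw [tr_sum]
  refine (totalDegree_finsetSum _ _).trans ?_
  refine Finset.sup_le fun t ht => ?_
  refine (totalDegree_mul _ _).trans ?_
  rw [totalDegree_C, zero_add]
  refine (totalDegree_finsetProd _ _).trans ?_
  refine (Finset.sum_le_sum fun i _ => ?_).trans (le_totalDegree ht)
  refine (totalDegree_pow _ _).trans ?_
  have h1 : (X i + C (v i) : MvPolynomial ι ℤ).totalDegree ≤ 1 := by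
    refine (totalDegree_add _ _).trans ?_
    rw [totalDegree_C, totalDegree_X]
    simp
  calc t i * (X i + C (v i) : MvPolynomial ι ℤ).totalDegree ≤ t i * 1 := Nat.mul_le_mul_left _ h1
    _ = t i := mul_one _

theorem deg_eq (F : MvPolynomial ι ℤ) (v : ι → ℤ) : (tr F v).totalDegree = F.totalDegree := by
  apply le_antisymm (deg_le F v)
  have h1 := deg_le (tr F v) (fun i => - v i)
  rw [tr_tr] at h1
  have h2 : (fun i => v i + - v i) = (fun _ => 0 : ι → ℤ) := by
    funext i; ring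
  rw [h2, tr_zero] at h1
  exact h1

theorem lead (m : MonomialOrder ι) (t : ι →₀ ℕ) (v : ι → ℤ) :
    m.degree (∏ i ∈ t.support, (X i + C (v i) : MvPolynomial ι ℤ) ^ t i) = t ∧
      coeff t (∏ i ∈ t.support, (X i + C (v i) : MvPolynomial ι ℤ) ^ t i) = 1 := by
  have hm : ∀ i ∈ t.support, m.Monic ((X i + C (v i) : MvPolynomial ι ℤ) ^ t i) :=
    fun i _ => (m.monic_X_add_C i (v i)).pow
  have h1 : m.degree (∏ i ∈ t.support, (X i + C (v i) : MvPolynomial ι ℤ) ^ t i) = t := by
    rw [m.degree_prod (fun i hi => (hm i hi).ne_zero)]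
    have h2 : ∀ i ∈ t.support, m.degree ((X i + C (v i) : MvPolynomial ι ℤ) ^ t i) =
        Finsupp.single i (t i) := by
      intro i _
      rw [m.degree_pow, m.degree_X_add_C, Finsupp.smul_single, smul_eq_mul, mul_one]
    rw [Finset.sum_congr rfl h2]
    exact Finsupp.sum_single t
  refine ⟨h1, ?_⟩
  have h3 := (MonomialOrder.Monic.prod hm).coeff_degree
  rwa [h1] at h3

theorem coeff_top (m : MonomialOrder ι) (F : MvPolynomial ι ℤ) (v : ι → ℤ) :
    coeff (m.degree F) (tr F v) = coeff (m.degree F) F := by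
  rw [tr_sum, coeff_sum]
  by_cases hF : F = 0
  · subst hF
    simp
  rw [Finset.sum_eq_single (m.degree F)]
  · rw [coeff_C_mul, (lead m (m.degree F) v).2, mul_one]
  · intro t ht hne
    rw [coeff_C_mul]
    have h1 := m.le_degree ht
    have h2 : m.toSyn t < m.toSyn (m.degree F) :=
      lt_of_le_of_ne h1 (fun h => hne (m.toSyn.injective h))
    have h3 := (lead m t v).1
    have h4 : coeff (m.degree F) (∏ i ∈ t.support, (X i + C (v i) : MvPolynomial ι ℤ) ^ t i) = 0 :=
      m.coeff_eq_zero_of_lt (by rw [h3]; exact h2)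
    rw [h4, mul_zero]
  · intro h
    exact absurd (m.degree_mem_support hF) h

theorem not_dvd [Finite ι] (F : MvPolynomial ι ℤ) (v : ι → ℤ) (hF : 0 < F.totalDegree)
    (hne : tr F v ≠ F) : ¬ F ∣ tr F v := by
  rintro ⟨q, hq⟩
  have hF0 : F ≠ 0 := by
    rintro rfl
    simp at hF
  have hq0 : q ≠ 0 := by
    rintro rfl
    rw [mul_zero] at hq
    have h1 := deg_eq F v
    rw [hq, totalDegree_zero] at h1
    omega
  have h1 := deg_eq F v
  rw [hq, totalDegree_mul_of_isDomain hF0 hq0] at h1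
  have h2 : q.totalDegree = 0 := by omega
  obtain ⟨c, hc⟩ : ∃ c, q = C c := ⟨_, totalDegree_eq_zero_iff_eq_C.1 h2⟩
  have := Fintype.ofFinite ι
  let lo : LinearOrder ι := LinearOrder.lift' (Fintype.equivFin ι) (Equiv.injective _)
  let m : MonomialOrder ι := MonomialOrder.lex
  have h3 := coeff_top m F v
  rw [hq, hc, mul_comm, coeff_C_mul] at h3
  have h4 : coeff (m.degree F) F ≠ 0 := m.coeff_degree_ne_zero_iff.2 hF0
  have h5 : c = 1 := by
    have : (c - 1) * coeff (m.degree F) F = 0 := by linear_combination h3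
    rcases mul_eq_zero.1 this with h | h
    · linear_combination h
    · exact absurd h h4
  apply hne
  rw [hq, hc, h5, C_1, mul_one]

/-- `Q` has coefficients at least the absolute values of the coefficients of `P` -/
def Maj (P : MvPolynomial ι ℤ) (Q : MvPolynomial ι ℝ) : Prop :=
  ∀ s, |((coeff s P : ℤ) : ℝ)| ≤ coeff s Q

theorem Maj.add {P P' : MvPolynomial ι ℤ} {Q Q' : MvPolynomial ι ℝ} (h : Maj P Q)
    (h' : Maj P' Q') : Maj (P + P') (Q + Q') := by
  intro s
  rw [coeff_add, coeff_add]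
  push_cast
  exact (abs_add_le _ _).trans (add_le_add (h s) (h' s))

theorem Maj.mul {P P' : MvPolynomial ι ℤ} {Q Q' : MvPolynomial ι ℝ} (h : Maj P Q)
    (h' : Maj P' Q') : Maj (P * P') (Q * Q') := by
  intro s
  rw [coeff_mul, coeff_mul]
  push_cast
  refine (Finset.abs_sum_le_sum_abs _ _).trans (Finset.sum_le_sum fun x _ => ?_)
  rw [abs_mul]
  exact mul_le_mul (h _) (h' _) (abs_nonneg _) ((abs_nonneg _).trans (h _))

theorem Maj.cst (a : ℤ) (b : ℝ) (h : |(a : ℝ)| ≤ b) :
    Maj (C a : MvPolynomial ι ℤ) (C b : MvPolynomial ι ℝ) := by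
  intro s
  rw [coeff_C, coeff_C]
  split_ifs
  · exact h
  · simp

theorem Maj.var (i : ι) : Maj (X i : MvPolynomial ι ℤ) (X i : MvPolynomial ι ℝ) := by
  intro s
  rw [coeff_X, coeff_X]
  split_ifs <;> simp

theorem Maj.pow {P : MvPolynomial ι ℤ} {Q : MvPolynomial ι ℝ} (h : Maj P Q) (n : ℕ) :
    Maj (P ^ n) (Q ^ n) := by
  induction n with
  | zero =>
    rw [pow_zero, pow_zero, ← C_1, ← C_1]
    exact Maj.cst 1 1 (by simp)
  | succ n ih =>
    rw [pow_succ, pow_succ]
    exact ih.mul h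

theorem Maj.prod {α : Type} (S : Finset α) (P : α → MvPolynomial ι ℤ) (Q : α → MvPolynomial ι ℝ)
    (h : ∀ a ∈ S, Maj (P a) (Q a)) : Maj (∏ a ∈ S, P a) (∏ a ∈ S, Q a) := by
  induction S using Finset.induction_on with
  | empty =>
    rw [Finset.prod_empty, Finset.prod_empty, ← C_1, ← C_1]
    exact Maj.cst 1 1 (by simp)
  | insert a S ha ih =>
    rw [Finset.prod_insert ha, Finset.prod_insert ha]
    exact (h a (Finset.mem_insert_self _ _)).mul
      (ih fun b hb => h b (Finset.mem_insert_of_mem hb))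

theorem Maj.sum {α : Type} (S : Finset α) (P : α → MvPolynomial ι ℤ) (Q : α → MvPolynomial ι ℝ)
    (h : ∀ a ∈ S, Maj (P a) (Q a)) : Maj (∑ a ∈ S, P a) (∑ a ∈ S, Q a) := by
  induction S using Finset.induction_on with
  | empty =>
    intro s
    simp
  | insert a S ha ih =>
    rw [Finset.sum_insert ha, Finset.sum_insert ha]
    exact (h a (Finset.mem_insert_self _ _)).add
      (ih fun b hb => h b (Finset.mem_insert_of_mem hb))

/-- a coefficient is at most the value at `1` -/
theorem Maj.le_eval {P : MvPolynomial ι ℤ} {Q : MvPolynomial ι ℝ} (h : Maj P Q) (s : ι →₀ ℕ) :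
    |((coeff s P : ℤ) : ℝ)| ≤ eval (fun _ => 1) Q := by
  have h0 : ∀ t, 0 ≤ coeff t Q := fun t => (abs_nonneg _).trans (h t)
  rw [eval_eq]
  have h1 : ∀ t ∈ Q.support, coeff t Q * ∏ i ∈ t.support, (1 : ℝ) ^ t i = coeff t Q := by
    intro t _
    simp
  rw [Finset.sum_congr rfl h1]
  by_cases hs : s ∈ Q.support
  · exact (h s).trans (Finset.single_le_sum (f := fun t => coeff t Q) (fun t _ => h0 t) hs)
  · have h2 := h s
    rw [notMem_support_iff.1 hs] at h2
    exact h2.trans (Finset.sum_nonneg fun t _ => h0 t)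

theorem coeff_bound (F : MvPolynomial ι ℤ) (v : ι → ℤ) (H : ℝ) (hH : 1 ≤ H)
    (hv : ∀ i, |(v i : ℝ)| ≤ H) (s : ι →₀ ℕ) :
    |((coeff s (tr F v) : ℤ) : ℝ)| ≤
      ((∑ t ∈ F.support, |((coeff t F : ℤ) : ℝ)|) * 2 ^ F.totalDegree) * H ^ F.totalDegree := by
  have h1 : Maj (tr F v) (∑ t ∈ F.support,
      C (|((coeff t F : ℤ) : ℝ)|) * ∏ i ∈ t.support, (X i + C H) ^ t i) := by
    rw [tr_sum]
    exact Maj.sum _ _ _ fun t _ => (Maj.cst _ _ le_rfl).mul (Maj.prod _ _ _ fun i _ =>
      ((Maj.var i).add (Maj.cst _ _ (hv i))).pow _)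
  refine (h1.le_eval s).trans ?_
  rw [map_sum, Finset.sum_mul, Finset.sum_mul]
  refine Finset.sum_le_sum fun t ht => ?_
  rw [map_mul, eval_C, map_prod, mul_assoc]
  apply mul_le_mul_of_nonneg_left _ (abs_nonneg _)
  have h2 : ∀ i ∈ t.support, eval (fun _ => (1 : ℝ)) ((X i + C H : MvPolynomial ι ℝ) ^ t i) =
      (1 + H) ^ t i := by
    intro i _
    rw [map_pow, map_add, eval_X, eval_C]
  rw [Finset.prod_congr rfl h2, Finset.prod_pow_eq_pow_sum, ← mul_pow]
  have h3 : ∑ i ∈ t.support, t i ≤ F.totalDegree := le_totalDegree ht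
  calc (1 + H) ^ (∑ i ∈ t.support, t i) ≤ (2 * H) ^ (∑ i ∈ t.support, t i) := by
        apply pow_le_pow_left₀ (by linarith)
        linarith
    _ ≤ (2 * H) ^ F.totalDegree := pow_le_pow_right₀ (by linarith) h3

theorem t_TR : S_TR := by
  intro ι _ F
  refine ⟨fun v x => tr_eval F v x, fun v p x => red_eval F v p x, fun v w => tr_tr F v w,
    fun v p _ => zc_tr F v p, fun v => deg_eq F v, fun v h1 h2 => not_dvd F v h1 h2,
    1 + (∑ t ∈ F.support, |((coeff t F : ℤ) : ℝ)|) * 2 ^ F.totalDegree, ?_, ?_⟩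
  · have : 0 ≤ (∑ t ∈ F.support, |((coeff t F : ℤ) : ℝ)|) * 2 ^ F.totalDegree := by positivity
    linarith
  · intro v H hH hv s
    refine (coeff_bound F v H hH hv s).trans ?_
    apply mul_le_mul_of_nonneg_right _ (by positivity)
    linarith

end Pool.Agent.H196.MV
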